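import Pool.Agent.Helper60.FF.StmtsC
import Pool.Agent.Helper50.BSC.PadLib

set_option autoImplicit false

namespace Pool.Agent.Helper60.FF

open Polynomial

theorem cnj_mem {p : ℕ} [hp : Fact p.Prime] (A : Subfield ℂ_[p]) (hA : IsAlgClosed A) (P : Polynomial A)
    (hP : P ≠ 0) (r : ℂ_[p]) (hr : (P.map A.subtype).eval r = 0) : r ∈ A := by
  have h0 : IsAlgebraic A r := by
    refine ⟨P, hP, ?_⟩
    rw [aeval_def, ← eval_map]
    exact hr
  have h2 := IsAlgClosed.degree_eq_one_of_irreducible A (minpoly.irreducible h0.isIntegral)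
  obtain ⟨y, hy⟩ := minpoly.mem_range_of_degree_eq_one A r h2
  rw [← hy]
  exact y.2

theorem cnj_aux (p : ℕ) [hp : Fact p.Prime] (A : Subfield ℂ_[p]) (hA : IsAlgClosed A)
    (hAa : ∀ a ∈ A, IsAlgebraic ℚ_[p] a) (E : IntermediateField ℚ_[p] ℂ_[p])
    (hE : FiniteDimensional ℚ_[p] E) (a : ℂ_[p]) (R : ℝ) (ha : a ∈ E) (n : ℕ) :
    ∀ P : Polynomial A, P.natDegree ≤ n → P ≠ 0 → (∀ j, ((P.coeff j : A) : ℂ_[p]) ∈ E) →
    ∃ P₁ P₂ : Polynomial A, P = P₁ * P₂ ∧ P₁.Monic ∧ (∀ j, ((P₁.coeff j : A) : ℂ_[p]) ∈ E) ∧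
      (∀ j, ((P₂.coeff j : A) : ℂ_[p]) ∈ E) ∧
      (∀ v : A, P₁.eval v = 0 → ‖(v : ℂ_[p]) - a‖ < R) ∧
      (∀ v : A, P₂.eval v = 0 → R ≤ ‖(v : ℂ_[p]) - a‖) := by
  induction n with
  | zero =>
    intro P hd hP hc
    refine ⟨1, P, (one_mul P).symm, monic_one, ?_, hc, ?_, ?_⟩
    · intro j
      rw [coeff_one]
      split_ifs
      · exact E.one_mem
      · exact E.zero_mem
    · intro v hv
      rw [eval_one] at hv
      exact absurd hv one_ne_zero
    · intro v hv
      have h1 := eq_C_of_natDegree_le_zero hd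
      rw [h1, eval_C] at hv
      exact absurd (h1.trans (by rw [hv, C_0])) hP
  | succ n ih =>
    intro P hd hP hc
    by_cases hd0 : P.natDegree ≤ n
    · exact ih P hd0 hP hc
    have hdeg : P.natDegree ≠ 0 := by omega
    have hdeg' : P.degree ≠ 0 := by
      intro h
      exact hdeg (natDegree_eq_of_degree_eq_some h)
    obtain ⟨v, hv⟩ := IsAlgClosed.exists_root P hdeg'
    have hinjA : Function.Injective A.subtype := A.subtype.injective
    have hinjE : Function.Injective (algebraMap E ℂ_[p]) := (algebraMap E ℂ_[p]).injective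
    have lift : ∀ Q : Polynomial A, (∀ j, ((Q.coeff j : A) : ℂ_[p]) ∈ E) →
        ∃ Q' : Polynomial E, Q'.map (algebraMap E ℂ_[p]) = Q.map A.subtype := by
      intro Q hQ
      have h1 : Q.map A.subtype ∈ lifts (algebraMap E ℂ_[p]) := by
        rw [lifts_iff_coeff_lifts]
        intro j
        rw [coeff_map]
        exact ⟨⟨_, hQ j⟩, rfl⟩
      exact (mem_lifts _).1 h1
    obtain ⟨PE, hPE⟩ := lift P hc
    have hPE0 : PE ≠ 0 := by
      intro h
      rw [h, Polynomial.map_zero] at hPE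
      exact hP ((Polynomial.map_eq_zero_iff hinjA).1 hPE.symm)
    have hPev : (P.map A.subtype).eval (v : ℂ_[p]) = 0 := by
      have h1 := eval_map_apply (f := A.subtype) (p := P) v
      have h2 : P.eval v = 0 := hv
      rw [h2, map_zero] at h1
      exact h1
    have hval : aeval (v : ℂ_[p]) PE = 0 := by
      rw [aeval_def, ← eval_map, hPE]
      exact hPev
    have hvalg : IsAlgebraic E (v : ℂ_[p]) := ⟨PE, hPE0, hval⟩
    have hint : IsIntegral E (v : ℂ_[p]) := IsAlgebraic.isIntegral hvalg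
    obtain ⟨QE, hQE⟩ := minpoly.dvd E (v : ℂ_[p]) hval
    have hmon : (minpoly E (v : ℂ_[p])).Monic := minpoly.monic hint
    have hmonm : ((minpoly E (v : ℂ_[p])).map (algebraMap E ℂ_[p])).Monic := hmon.map _
    have hmul : P.map A.subtype = (minpoly E (v : ℂ_[p])).map (algebraMap E ℂ_[p]) *
        QE.map (algebraMap E ℂ_[p]) := by
      rw [← Polynomial.map_mul, ← hQE, hPE]
    -- the minimal polynomial has coefficients in `A`
    have hlA : (minpoly E (v : ℂ_[p])).map (algebraMap E ℂ_[p]) ∈ lifts A.subtype := by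
      have hs : ((minpoly E (v : ℂ_[p])).map (algebraMap E ℂ_[p])).Splits := IsAlgClosed.splits _
      rw [hs.eq_prod_roots_of_monic hmonm]
      apply multiset_prod_mem
      intro q hq
      obtain ⟨r, hr, rfl⟩ := Multiset.mem_map.1 hq
      have hr2 : (P.map A.subtype).eval r = 0 := by
        rw [hmul, eval_mul]
        have : ((minpoly E (v : ℂ_[p])).map (algebraMap E ℂ_[p])).eval r = 0 := (mem_roots'.1 hr).2
        rw [this, zero_mul]
      have hrA := cnj_mem A hA P hP r hr2
      rw [mem_lifts]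
      refine ⟨X - C ⟨r, hrA⟩, ?_⟩
      rw [Polynomial.map_sub, map_X, map_C]
      rfl
    obtain ⟨μ, hμ⟩ := (mem_lifts _).1 hlA
    have hμmon : μ.Monic := by
      have : (μ.map A.subtype).Monic := by rw [hμ]; exact hmonm
      exact monic_of_injective hinjA this
    have hμE : ∀ j, ((μ.coeff j : A) : ℂ_[p]) ∈ E := by
      intro j
      have h1 : A.subtype (μ.coeff j) = algebraMap E ℂ_[p] ((minpoly E (v : ℂ_[p])).coeff j) := by
        rw [← coeff_map, ← coeff_map, hμ]
      have h2 : ((μ.coeff j : A) : ℂ_[p]) = algebraMap E ℂ_[p] ((minpoly E (v : ℂ_[p])).coeff j) := h1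
      rw [h2]
      exact ((minpoly E (v : ℂ_[p])).coeff j).2
    have hdvd : μ ∣ P := by
      have h1 : μ.map A.subtype ∣ P.map A.subtype := by
        rw [hμ, hmul]
        exact dvd_mul_right _ _
      exact (Polynomial.map_dvd_map A.subtype hinjA hμmon).1 h1
    obtain ⟨P', hP'⟩ := hdvd
    have hP'0 : P' ≠ 0 := by
      intro h
      rw [h, mul_zero] at hP'
      exact hP hP'
    have hP'E : ∀ j, ((P'.coeff j : A) : ℂ_[p]) ∈ E := by
      have h1 : P'.map A.subtype = QE.map (algebraMap E ℂ_[p]) := by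
        have h2 : μ.map A.subtype * P'.map A.subtype = μ.map A.subtype * QE.map (algebraMap E ℂ_[p]) := by
          rw [← Polynomial.map_mul, ← hP', hμ, hmul]
        have h3 : μ.map A.subtype ≠ 0 := by rw [hμ]; exact hmonm.ne_zero
        exact mul_left_cancel₀ h3 h2
      intro j
      have h2 : A.subtype (P'.coeff j) = algebraMap E ℂ_[p] (QE.coeff j) := by
        rw [← coeff_map, ← coeff_map, h1]
      have h3 : ((P'.coeff j : A) : ℂ_[p]) = algebraMap E ℂ_[p] (QE.coeff j) := h2
      rw [h3]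
      exact (QE.coeff j).2
    have hμdeg : 0 < μ.natDegree := by
      have h1 : (μ.map A.subtype).natDegree = μ.natDegree := natDegree_map _
      rw [← h1, hμ, natDegree_map]
      exact minpoly.natDegree_pos hint
    have hP'deg : P'.natDegree ≤ n := by
      have h1 : P.natDegree = μ.natDegree + P'.natDegree := by
        rw [hP', natDegree_mul hμmon.ne_zero hP'0]
      omega
    -- all roots of `μ` have the same distance from `a`
    have hdist : ∀ w : A, μ.eval w = 0 → ‖(w : ℂ_[p]) - a‖ = ‖(v : ℂ_[p]) - a‖ := by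
      intro w hw
      have hw1 : aeval (w : ℂ_[p]) (minpoly E (v : ℂ_[p])) = 0 := by
        rw [aeval_def, ← eval_map, ← hμ]
        have h1 := eval_map_apply (f := A.subtype) (p := μ) w
        rw [hw, map_zero] at h1
        exact h1
      have haa : IsAlgebraic ℚ_[p] a := by
        have h1 : IsAlgebraic ℚ_[p] (⟨a, ha⟩ : E) := Algebra.IsAlgebraic.isAlgebraic _
        exact h1.algebraMap
      have halg : IsAlgebraic ℚ_[p] ((v : ℂ_[p]) - a) := (hAa _ v.2).sub haa
      apply Pool.Agent.Helper14.BSC.pl_conj E halg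
      have h3 : (v : ℂ_[p]) - a = (v : ℂ_[p]) - algebraMap E ℂ_[p] ⟨a, ha⟩ := rfl
      rw [h3, minpoly.sub_algebraMap, aeval_comp]
      have h4 : aeval ((w : ℂ_[p]) - a) (X + C (⟨a, ha⟩ : E)) = (w : ℂ_[p]) := by
        rw [map_add, aeval_X, aeval_C]
        show (w : ℂ_[p]) - a + a = w
        ring
      rw [h4]
      exact hw1
    have mulE : ∀ Q S : Polynomial A, (∀ j, ((Q.coeff j : A) : ℂ_[p]) ∈ E) →
        (∀ j, ((S.coeff j : A) : ℂ_[p]) ∈ E) → ∀ j, (((Q * S).coeff j : A) : ℂ_[p]) ∈ E := by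
      intro Q S hQ hS j
      obtain ⟨Q', hQ'⟩ := lift Q hQ
      obtain ⟨S', hS'⟩ := lift S hS
      have h1 : (Q' * S').map (algebraMap E ℂ_[p]) = (Q * S).map A.subtype := by
        rw [Polynomial.map_mul, Polynomial.map_mul, hQ', hS']
      have h2 : A.subtype ((Q * S).coeff j) = algebraMap E ℂ_[p] ((Q' * S').coeff j) := by
        rw [← coeff_map, ← coeff_map, h1]
      have h3 : (((Q * S).coeff j : A) : ℂ_[p]) = algebraMap E ℂ_[p] ((Q' * S').coeff j) := h2
      rw [h3]
      exact ((Q' * S').coeff j).2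
    obtain ⟨P₁, P₂, e0, e1, e2, e3, e4, e5⟩ := ih P' hP'deg hP'0 hP'E
    by_cases hR : ‖(v : ℂ_[p]) - a‖ < R
    · refine ⟨μ * P₁, P₂, ?_, hμmon.mul e1, mulE _ _ hμE e2, e3, ?_, e5⟩
      · rw [hP', e0, mul_assoc]
      · intro w hw
        rw [eval_mul] at hw
        rcases mul_eq_zero.1 hw with h | h
        · rw [hdist w h]
          exact hR
        · exact e4 w h
    · refine ⟨P₁, μ * P₂, ?_, e1, e2, mulE _ _ hμE e3, e4, ?_⟩
      · rw [hP', e0]
        ring
      · intro w hw
        rw [eval_mul] at hw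
        rcases mul_eq_zero.1 hw with h | h
        · rw [hdist w h]
          exact not_lt.1 hR
        · exact e5 w h

theorem st_CNJ : ST_CNJ := by
  intro p _ A hA hAa E hE a R ha P hP hc
  exact cnj_aux p A hA hAa E hE a R ha P.natDegree P le_rfl hP hc

end Pool.Agent.Helper60.FF
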